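import Pool.Agent.H14.PD.Stmts

/-!
# Project PD: module XLK (links of the concrete complex)
-/

set_option autoImplicit false

namespace Pool.Agent.H14.PD

namespace XLKaux

variable {P Q : Type} (Z : Sz P Q)

lemma pe_eq (p : P) (b : Bool) : ∃ c, pe Z p b = Nd.p p c := by
  unfold pe
  split_ifs with h
  · exact ⟨false, rfl⟩
  · exact ⟨b, rfl⟩

lemma nrm_pe (p : P) (b : Bool) : nrm Z (pe Z p b) := by
  intro c hc
  unfold pe at hc
  split_ifs at hc with h
  · simp only [Nd.p.injEq] at hc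
    exact hc.2.symm
  · simp only [Nd.p.injEq] at hc
    exact absurd hc.1 h

lemma nrm_q (q : Q) (b : Bool) : nrm Z (Nd.q q b) := by
  intro c hc
  simp at hc

lemma pe_self {p : P} {b : Bool} (h : nrm Z (Nd.p p b)) : pe Z p b = Nd.p p b := by
  unfold pe
  split_ifs with e
  · have := h b (by rw [e])
    rw [this]
  · rfl

lemma succ_ne (i : Fin 3) : i + 1 ≠ i := by
  fin_cases i <;> decide

variable {Z}

/-- every label from a `Q`-node, if the next coordinate is a `P`-node -/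
lemma labQ {x : Xv P Q} (hg : gd Z x) {i : Fin 3} {q : Q} {b : Bool} (hi : x i = Nd.q q b)
    (hn : ∀ q2 c, x (i + 1) ≠ Nd.q q2 c) (p' : P) : xlab Z x (i, p', q, b) := by
  have hx : xact Z x (i, p', q, b) = Function.update x i (pe Z p' b) := by
    unfold xact oe
    simp [hi]
  refine ⟨hg, ?_, Or.inl hi⟩
  rw [hx]
  obtain ⟨c0, hc0⟩ := pe_eq Z p' b
  constructor
  · intro j
    by_cases hj : j = i
    · rw [hj, Function.update_self]
      exact nrm_pe Z p' b
    · rw [Function.update_of_ne hj]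
      exact hg.1 j
  · intro j p1 b1 q1 c1 h1 h2
    by_cases hj : j = i
    · rw [hj, Function.update_of_ne (succ_ne i)] at h2
      exact absurd h2 (hn _ _)
    · by_cases hj' : j + 1 = i
      · rw [hj', Function.update_self, hc0] at h2
        simp at h2
      · rw [Function.update_of_ne hj] at h1
        rw [Function.update_of_ne hj'] at h2
        exact hg.2 j p1 b1 q1 c1 h1 h2

/-- every label from a `P`-node, if the previous coordinate is a `Q`-node -/
lemma labP {x : Xv P Q} (hg : gd Z x) {k : Fin 3} {p : P} {b' : Bool}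
    (hi : x (k + 1) = pe Z p b') (hn : ∀ p2 c, x k ≠ Nd.p p2 c) (q' : Q) :
    xlab Z x (k + 1, p, q', b') := by
  obtain ⟨c0, hc0⟩ := pe_eq Z p b'
  have hx : xact Z x (k + 1, p, q', b') = Function.update x (k + 1) (Nd.q q' b') := by
    unfold xact oe
    simp [hi, hc0]
  refine ⟨hg, ?_, Or.inr hi⟩
  rw [hx]
  constructor
  · intro j
    by_cases hj : j = k + 1
    · rw [hj, Function.update_self]
      exact nrm_q Z q' b'
    · rw [Function.update_of_ne hj]
      exact hg.1 j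
  · intro j p1 b1 q1 c1 h1 h2
    by_cases hj : j = k + 1
    · rw [hj, Function.update_self] at h1
      simp at h1
    · rw [Function.update_of_ne hj] at h1
      by_cases hj' : j + 1 = k + 1
      · have : j = k := add_right_cancel hj'
        rw [this] at h1
        exact absurd h1 (hn _ _)
      · rw [Function.update_of_ne hj'] at h2
        exact hg.2 j p1 b1 q1 c1 h1 h2

variable (Z) in
/-- labels with the sign `up` -/
def Sg (m : ℕ) (up : Bool) (x : Xv P Q) (s : Xs P Q) : Prop :=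
  if up then 0 < xeta Z m x s else xeta Z m x s < 0

lemma sg_q {m : ℕ} (hm : 1 ≤ m) (up : Bool) {x : Xv P Q} {s : Xs P Q}
    (h : x s.1 = Nd.q s.2.2.1 s.2.2.2) :
    Sg Z m up x s ↔ Z.bp s.2.1 = (if up then !Z.bq s.2.2.1 else Z.bq s.2.2.1) := by
  have hm' : (0 : ℤ) < m := by exact_mod_cast hm
  have hf : (0 : ℤ) < (if s.1 = 0 then (m : ℤ) else 1) := by split_ifs <;> omega
  unfold Sg xeta
  rw [if_pos h]
  cases up
  · by_cases e : Z.bp s.2.1 = Z.bq s.2.2.1
    · simp [e, hf]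
    · simp [e, hf.le]
  · by_cases e : Z.bp s.2.1 = Z.bq s.2.2.1
    · simp [e, hf.le]
    · simp only [e, if_true, if_false]
      constructor
      · intro _
        revert e
        cases Z.bp s.2.1 <;> cases Z.bq s.2.2.1 <;> simp
      · intro _
        linarith

lemma sg_p {m : ℕ} (hm : 1 ≤ m) (up : Bool) {x : Xv P Q} {s : Xs P Q}
    (h : x s.1 ≠ Nd.q s.2.2.1 s.2.2.2) :
    Sg Z m up x s ↔ Z.bq s.2.2.1 = (if up then Z.bp s.2.1 else !Z.bp s.2.1) := by
  have hm' : (0 : ℤ) < m := by exact_mod_cast hm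
  have hf : (0 : ℤ) < (if s.1 = 0 then (m : ℤ) else 1) := by split_ifs <;> omega
  unfold Sg xeta
  rw [if_neg h]
  cases up
  · by_cases e : Z.bp s.2.1 = Z.bq s.2.2.1
    · simp [e, hf.le]
    · simp only [e, if_false]
      constructor
      · intro _
        revert e
        cases Z.bp s.2.1 <;> cases Z.bq s.2.2.1 <;> simp
      · intro _
        simp only [Bool.false_eq_true, if_false]
        linarith
  · by_cases e : Z.bp s.2.1 = Z.bq s.2.2.1
    · simp [e, hf]
    · simp only [e, if_true, if_false]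
      constructor
      · intro h'
        linarith
      · intro h'
        exact absurd h'.symm e

lemma case3 (i j : Fin 3) : j = i ∨ j = i + 1 ∨ j = i + 2 := by
  fin_cases i <;> fin_cases j <;> decide

lemma rtg_symm {S : Type} {E : S → Prop} {cm : S → S → Prop} (hs : ∀ s t, cm s t → cm t s)
    {a b : S} (h : Relation.ReflTransGen (fun a b => E a ∧ E b ∧ cm a b) a b) :
    Relation.ReflTransGen (fun a b => E a ∧ E b ∧ cm a b) b a := by
  induction h with
  | refl => exact Relation.ReflTransGen.refl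
  | tail _ h ih => exact Relation.ReflTransGen.head ⟨h.2.1, h.1, hs _ _ h.2.2⟩ ih

/-- the mixed case -/
lemma mixed (hC : XCM) (hPA : XPA) (hEX : XEX) {m : ℕ} (hm : 1 ≤ m) (up : Bool) {x : Xv P Q}
    (hg : gd Z x) {i : Fin 3} {q : Q} {b : Bool} (hi : x i = Nd.q q b) {p : P} {b0 : Bool}
    (hi1 : x (i + 1) = Nd.p p b0) :
    Lk (xcm Z) (fun s => xlab Z x s ∧ Sg Z m up x s) := by
  obtain ⟨hsym, -, -, hsame⟩ := hC P Q Z
  have hEXi : ∀ j : Fin 3, ∃ s : Xs P Q, s.1 = j ∧ xlab Z x s ∧ Sg Z m up x s := by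
    intro j
    obtain ⟨s, h1, h2, h3⟩ := hEX P Q Z x hg j up
    exact ⟨s, h1, h2, h3 m hm⟩
  set β : Bool := (if up then !Z.bq q else Z.bq q) with hβ
  set γ : Bool := (if up then Z.bp p else !Z.bp p) with hγ
  set E : Xs P Q → Prop := fun s => (xlab Z x s ∧ Sg Z m up x s) ∧ (s.1 = i ∨ s.1 = i + 1) with hE
  have hpe : pe Z p b0 = x (i + 1) := by
    rw [hi1]
    exact pe_self Z (by rw [← hi1]; exact hg.1 _)
  -- the labels of direction `i`
  have hEi : ∀ p', Z.bp p' = β → E (i, p', q, b) := by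
    intro p' hp'
    refine ⟨⟨labQ hg hi (by rw [hi1]; simp) p', ?_⟩, Or.inl rfl⟩
    rw [sg_q hm up (s := (i, p', q, b)) hi]
    exact hp'
  have hEi1 : ∀ q', Z.bq q' = γ → E (i + 1, p, q', b0) := by
    intro q' hq'
    refine ⟨⟨labP hg hpe.symm (by rw [hi]; simp) q', ?_⟩, Or.inr rfl⟩
    rw [sg_p hm up (s := (i + 1, p, q', b0)) (by rw [hi1]; simp)]
    exact hq'
  -- forms
  have fi : ∀ s, E s → s.1 = i → ∃ p', Z.bp p' = β ∧ s = (i, p', q, b) := by
    rintro ⟨j, p', q', b'⟩ ⟨⟨hl, hs⟩, -⟩ hj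
    simp only at hj
    subst hj
    rcases hl.2.2 with e | e
    · simp only at e
      rw [hi] at e
      simp only [Nd.q.injEq] at e
      obtain ⟨e1, e2⟩ := e
      subst e1 e2
      rw [sg_q hm up (s := (j, p', q, b)) hi] at hs
      exact ⟨p', hs, rfl⟩
    · simp only at e
      obtain ⟨c, hc⟩ := pe_eq Z p' b'
      rw [hi, hc] at e
      simp at e
  have fi1 : ∀ s, E s → s.1 = i + 1 → ∃ q', Z.bq q' = γ ∧ s.2.1 = p ∧ s.2.2.1 = q' := by
    rintro ⟨j, p', q', b'⟩ ⟨⟨hl, hs⟩, -⟩ hj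
    simp only at hj
    subst hj
    rcases hl.2.2 with e | e
    · simp only at e
      rw [hi1] at e
      simp at e
    · simp only at e
      obtain ⟨c, hc⟩ := pe_eq Z p' b'
      have e' := e
      rw [hi1, hc] at e'
      simp only [Nd.p.injEq] at e'
      have hn : x ((i + 1, p', q', b') : Xs P Q).1 ≠ Nd.q ((i + 1, p', q', b') : Xs P Q).2.2.1
          ((i + 1, p', q', b') : Xs P Q).2.2.2 := by
        simp only
        rw [hi1]
        simp
      rw [sg_p hm up hn] at hs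
      refine ⟨q', ?_, e'.1.symm, rfl⟩
      rw [hγ, e'.1]
      exact hs
  -- connectedness of the labels of direction `i`
  have conn : ∀ p1 p2, Z.bp p1 = β → Z.bp p2 = β →
      Relation.ReflTransGen (fun a b => E a ∧ E b ∧ xcm Z a b) (i, p1, q, b) (i, p2, q, b) := by
    intro p1 p2 h1 h2
    have h3 := Z.con β γ p1 p2 h1 h2
    have : ∀ a, Relation.ReflTransGen (fun a a' => Z.bp a' = β ∧ ∃ q, Z.bq q = γ ∧ Z.adj a q ∧
        Z.adj a' q) p1 a → Z.bp a = β ∧
        Relation.ReflTransGen (fun a b => E a ∧ E b ∧ xcm Z a b) (i, p1, q, b) (i, a, q, b) := by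
      intro a ha
      induction ha with
      | refl => exact ⟨h1, Relation.ReflTransGen.refl⟩
      | @tail c d _ hcd ih =>
        obtain ⟨ihb, ih⟩ := ih
        obtain ⟨hd, q', hq', a1, a2⟩ := hcd
        refine ⟨hd, (ih.tail ⟨hEi c ihb, hEi1 q' hq', Or.inl ⟨rfl, a1⟩⟩).tail
          ⟨hEi1 q' hq', hEi d hd, Or.inr ⟨rfl, a2⟩⟩⟩
    exact (this p2 h3).2
  -- every element is connected to the direction `i`
  have toi : ∀ s, E s → ∃ p', Z.bp p' = β ∧
      Relation.ReflTransGen (fun a b => E a ∧ E b ∧ xcm Z a b) s (i, p', q, b) := by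
    intro s hs
    rcases hs.2 with e | e
    · obtain ⟨p', hp', rfl⟩ := fi s hs e
      exact ⟨p', hp', Relation.ReflTransGen.refl⟩
    · obtain ⟨q', hq', e1, e2⟩ := fi1 s hs e
      obtain ⟨p', ha, hp'⟩ := Z.nbq q' β
      refine ⟨p', hp', Relation.ReflTransGen.single ⟨hs, hEi p' hp', Or.inr ⟨e, ?_⟩⟩⟩
      simp only
      rw [e2]
      exact ha
  refine ⟨fun s => (xlab Z x s ∧ Sg Z m up x s) ∧ s.1 = i + 2, E, ?_, ?_, ?_, ?_, ?_, ?_⟩
  · intro s
    constructor
    · intro h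
      rcases case3 i s.1 with e | e | e
      · exact Or.inr ⟨h, Or.inl e⟩
      · exact Or.inr ⟨h, Or.inr e⟩
      · exact Or.inl ⟨h, e⟩
    · rintro (h | h)
      · exact h.1
      · exact h.1
  · obtain ⟨s, h1, h2, h3⟩ := hEXi (i + 2)
    exact ⟨s, ⟨h2, h3⟩, h1⟩
  · obtain ⟨s, h1, h2, h3⟩ := hEXi i
    exact ⟨s, ⟨h2, h3⟩, Or.inl h1⟩
  · rintro d e ⟨⟨hd1, hd2⟩, hd3⟩ ⟨⟨he1, he2⟩, he3 | he3⟩
    · refine hPA P Q Z x d e ?_ hd1 he1 ?_
      · rw [he3, hd3]
        fin_cases i <;> decide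
      · rintro ⟨-, p1, b1, h⟩
        rw [he3, hi] at h
        simp at h
    · refine hsym _ _ (hPA P Q Z x e d ?_ he1 hd1 ?_)
      · rw [he3, hd3]
        fin_cases i <;> decide
      · rintro ⟨⟨q1, b1, h⟩, -⟩
        rw [he3, hi1] at h
        simp at h
  · rintro d d' ⟨-, h1⟩ ⟨-, h2⟩
    exact hsame d d' (h1.trans h2.symm)
  · intro e e' he he'
    obtain ⟨p1, h1, c1⟩ := toi e he
    obtain ⟨p2, h2, c2⟩ := toi e' he'
    exact (c1.trans (conn p1 p2 h1 h2)).trans (rtg_symm hsym c2)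

/-- the pure case -/
lemma pure (hC : XCM) (hPA : XPA) (hEX : XEX) {m : ℕ} (hm : 1 ≤ m) (up : Bool) {x : Xv P Q}
    (hg : gd Z x) (hno : ∀ i, ¬ ((∃ q b, x i = Nd.q q b) ∧ ∃ p b, x (i + 1) = Nd.p p b)) :
    Lk (xcm Z) (fun s => xlab Z x s ∧ Sg Z m up x s) := by
  obtain ⟨hsym, -, -, hsame⟩ := hC P Q Z
  have hEXi : ∀ j : Fin 3, ∃ s : Xs P Q, s.1 = j ∧ xlab Z x s ∧ Sg Z m up x s := by
    intro j
    obtain ⟨s, h1, h2, h3⟩ := hEX P Q Z x hg j up
    exact ⟨s, h1, h2, h3 m hm⟩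
  have hcm1 : ∀ s t, xlab Z x s → xlab Z x t → t.1 = s.1 + 1 → xcm Z s t := by
    intro s t hs ht h
    refine hPA P Q Z x s t h hs ht ?_
    rw [h]
    exact hno s.1
  have hcm : ∀ s t, xlab Z x s → xlab Z x t → s.1 ≠ t.1 → xcm Z s t := by
    intro s t hs ht h
    rcases case3 s.1 t.1 with e | e | e
    · exact absurd e.symm h
    · exact hcm1 s t hs ht e
    · refine hsym _ _ (hcm1 t s ht hs ?_)
      rw [e]
      have : ∀ i : Fin 3, i = i + 2 + 1 := by decide
      exact this s.1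
  set E : Xs P Q → Prop := fun s => (xlab Z x s ∧ Sg Z m up x s) ∧ (s.1 = 1 ∨ s.1 = 2) with hE
  refine ⟨fun s => (xlab Z x s ∧ Sg Z m up x s) ∧ s.1 = 0, E, ?_, ?_, ?_, ?_, ?_, ?_⟩
  · intro s
    constructor
    · intro h
      rcases case3 0 s.1 with e | e | e
      · exact Or.inl ⟨h, e⟩
      · exact Or.inr ⟨h, Or.inl (by rw [e]; decide)⟩
      · exact Or.inr ⟨h, Or.inr (by rw [e]; decide)⟩
    · rintro (h | h)
      · exact h.1
      · exact h.1
  · obtain ⟨s, h1, h2, h3⟩ := hEXi 0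
    exact ⟨s, ⟨h2, h3⟩, h1⟩
  · obtain ⟨s, h1, h2, h3⟩ := hEXi 1
    exact ⟨s, ⟨h2, h3⟩, Or.inl h1⟩
  · rintro d e ⟨⟨hd1, hd2⟩, hd3⟩ ⟨⟨he1, he2⟩, he3⟩
    refine hcm d e hd1 he1 ?_
    rw [hd3]
    rcases he3 with h | h <;> rw [h] <;> decide
  · rintro d d' ⟨-, h1⟩ ⟨-, h2⟩
    exact hsame d d' (h1.trans h2.symm)
  · obtain ⟨s1, a1, a2, a3⟩ := hEXi 1
    obtain ⟨s2, b1, b2, b3⟩ := hEXi 2
    have E1 : E s1 := ⟨⟨a2, a3⟩, Or.inl a1⟩
    have E2 : E s2 := ⟨⟨b2, b3⟩, Or.inr b1⟩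
    have h12 : xcm Z s1 s2 := hcm s1 s2 a2 b2 (by rw [a1, b1]; decide)
    -- connect everything to `s1`
    have key : ∀ e, E e → Relation.ReflTransGen (fun a b => E a ∧ E b ∧ xcm Z a b) e s1 := by
      intro e he
      rcases he.2 with h | h
      · refine Relation.ReflTransGen.head (b := s2) ⟨he, E2, hcm e s2 he.1.1 b2 ?_⟩
          (Relation.ReflTransGen.single ⟨E2, E1, hsym _ _ h12⟩)
        rw [h, b1]
        decide
      · refine Relation.ReflTransGen.single ⟨he, E1, hcm e s1 he.1.1 a2 ?_⟩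
        rw [h, a1]
        decide
    intro e e' he he'
    exact (key e he).trans (rtg_symm hsym (key e' he'))

end XLKaux

open XLKaux in
/-- XLK -/
theorem pd_xlk : M_XLK := by
  intro hC hPA hEX P Q Z m hm x hx
  obtain ⟨s0, hs0⟩ := hx
  have hg := hs0.1
  have main : ∀ up : Bool, Lk (xcm Z) (fun s => xlab Z x s ∧ Sg Z m up x s) := by
    intro up
    by_cases h : ∃ i, (∃ q b, x i = Nd.q q b) ∧ ∃ p b, x (i + 1) = Nd.p p b
    · obtain ⟨i, ⟨q, b, hi⟩, p, b0, hi1⟩ := h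
      exact mixed hC hPA hEX hm up hg hi hi1
    · push Not at h
      refine pure hC hPA hEX hm up hg (fun i hh => ?_)
      obtain ⟨⟨q, b, h1⟩, p, b0, h2⟩ := hh
      exact h i ⟨q, b, h1⟩ p b0 h2
  refine ⟨?_, ?_⟩
  · have := main true
    simpa [Sg] using this
  · have := main false
    simpa [Sg] using this

end Pool.Agent.H14.PD
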